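import Pool.Agent.H16.GU.Targets3

/-!
Row CTS: the contents of the rows modulo the saturated spans of the rows before.
-/

set_option autoImplicit false

namespace Pool.Agent.H84.GU

open MeasureTheory Pool.Agent.H34.GM Pool.Agent.H34.GZ Pool.Agent.H34.GU

theorem pf_CTS : T_ADB → T_CTS := by
  intro hA m x hx
  obtain ⟨e, he⟩ := hA m x hx
  -- the coordinates
  set X : ZM m := Matrix.of fun s => e.symm (x s) with hX
  set E : ZM m := Matrix.of fun j => e (Pi.single j 1) with hE
  set E' : ZM m := Matrix.of fun j => e.symm (Pi.single j 1) with hE'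
  have lin : ∀ (f : (Fin m → ℤ) ≃+ (Fin m → ℤ)) (c : Fin m → ℤ),
      f c = fun l => ∑ j, c j * f (Pi.single j 1) l := by
    intro f c
    have h1 : c = ∑ j, c j • (Pi.single j (1 : ℤ) : Fin m → ℤ) := by
      funext l
      rw [Finset.sum_apply, Finset.sum_eq_single l]
      · simp
      · intro b _ hb
        simp [Pi.single_eq_of_ne' hb]
      · intro h; exact absurd (Finset.mem_univ _) h
    conv_lhs => rw [h1]
    rw [map_sum]
    funext l
    rw [Finset.sum_apply]
    apply Finset.sum_congr rfl
    intro j _
    rw [map_zsmul, Pi.smul_apply, smul_eq_mul]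
  have h1 : x = X * E := by
    ext s l
    rw [Matrix.mul_apply]
    have h2 := congrFun (lin e (X s)) l
    have h3 : e (X s) = x s := by
      show e (e.symm (x s)) = x s
      exact e.apply_symm_apply _
    rw [h3] at h2
    rw [h2]
    rfl
  have h2 : E' * E = 1 := by
    ext s l
    rw [Matrix.mul_apply]
    have h2 := congrFun (lin e (E' s)) l
    have h3 : e (E' s) = Pi.single s 1 := by
      show e (e.symm (Pi.single s 1)) = _
      exact e.apply_symm_apply _
    rw [h3] at h2
    have h4 : ∑ j, E' s j * E j l = (Pi.single s (1 : ℤ) : Fin m → ℤ) l := h2.symm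
    rw [h4, Matrix.one_apply, Pi.single_apply]
    simp only [eq_comm]
  have h3 : E.det.natAbs = 1 := by
    have h4 : E'.det * E.det = 1 := by rw [← Matrix.det_mul, h2, Matrix.det_one]
    exact Int.isUnit_iff_natAbs_eq.1 (IsUnit.of_mul_eq_one_right _ h4)
  -- triangular
  have hXs : ∀ s : Fin m, X s ∈ flg m ((s : ℕ) + 1) := by
    intro s
    have h4 : x s ∈ Lx x ((s : ℕ) + 1) := by
      unfold Lx
      rw [AddSubgroup.mem_comap]
      exact Submodule.subset_span ⟨s, Nat.lt_succ_self _, rfl⟩
    rw [← he ((s : ℕ) + 1) (by omega), AddSubgroup.mem_map] at h4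
    obtain ⟨c, hc, hc'⟩ := h4
    have h5 : X s = c := by
      show e.symm (x s) = c
      rw [← hc']
      exact e.symm_apply_apply c
    rw [h5]
    exact hc
  have htri : ∀ i j : Fin m, i < j → X i j = 0 := by
    intro i j hij
    exact hXs i j (by have : (i : ℕ) < j := hij; omega)
  have hdet : X.det = ∏ s, X s s := by
    apply Matrix.det_of_lowerTriangular
    intro i j hij
    exact htri i j hij
  have hne : X.det ≠ 0 := by
    intro h0
    apply hx
    rw [h1, Matrix.det_mul, h0, zero_mul]
  refine ⟨fun s => (X s s).natAbs, ?_, ?_⟩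
  · rw [h1, Matrix.det_mul, Int.natAbs_mul, h3, mul_one, hdet]
    exact (map_prod Int.natAbsHom _ _).symm
  · intro s
    have hss : X s s ≠ 0 := by
      rw [hdet] at hne
      exact Finset.prod_ne_zero_iff.1 hne s (Finset.mem_univ s)
    refine ⟨?_, ?_⟩
    · intro h4
      rw [← he (s : ℕ) (by omega), AddSubgroup.mem_map] at h4
      obtain ⟨c, hc, hc'⟩ := h4
      have h5 : X s = c := by
        show e.symm (x s) = c
        rw [← hc']
        exact e.symm_apply_apply c
      apply hss
      rw [h5]
      exact hc s le_rfl
    · refine ⟨e (X s - Pi.single s (X s s)), ?_, (SignType.sign (X s s) : ℤ) • e (Pi.single s 1),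
        ?_⟩
      · rw [← he (s : ℕ) (by omega)]
        refine AddSubgroup.mem_map_of_mem _ ?_
        intro j hj
        rcases eq_or_lt_of_le hj with h | h
        · have : j = s := Fin.ext h.symm
          subst this
          simp
        · have hsj : s ≠ j := by rintro rfl; omega
          rw [Pi.sub_apply, htri s j h, Pi.single_eq_of_ne' hsj, sub_zero]
      · have h4 : (Pi.single s (X s s) : Fin m → ℤ) = (X s s) • (Pi.single s (1 : ℤ)) := by
          funext l
          by_cases hl : l = s
          · subst hl; simp
          · simp [Pi.single_eq_of_ne hl]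
        rw [map_sub, h4, map_zsmul, smul_smul]
        have h5 : (((X s s).natAbs : ℤ)) * (SignType.sign (X s s) : ℤ) = X s s := by
          rw [Int.natCast_natAbs, mul_comm]
          exact sign_mul_abs (X s s)
        rw [h5]
        have h6 : e (X s) = x s := by
          show e (e.symm (x s)) = x s
          exact e.apply_symm_apply _
        rw [h6, sub_add_cancel]

end Pool.Agent.H84.GU
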