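import Pool.Agent.H76.GU.Targets

/-!
Row RHO: the weights of the block groups together.
-/

set_option autoImplicit false

namespace Pool.Agent.H84.GU

open MeasureTheory Pool.Agent.H34.GM Pool.Agent.H34.GZ Pool.Agent.H34.GU Pool.Agent.H76.GU

namespace RHO

lemma mt_lm {m : ℕ} (a : Mat m) (z : V m) : mt (lm a z) = a * mt z := by
  ext i j; rfl

lemma lm_lm {m : ℕ} (a b : Mat m) (z : V m) : lm a (lm b z) = lm (a * b) z := by
  funext i j
  show (a * mt (lm b z)) i j = (a * b * mt z) i j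
  rw [mt_lm, Matrix.mul_assoc]

lemma lm_one {m : ℕ} (z : V m) : lm (1 : Mat m) z = z := by
  funext i j
  show ((1 : Mat m) * mt z) i j = z i j
  rw [Matrix.one_mul]; rfl

lemma meas_lm {m : ℕ} (a : Mat m) : Measurable (lm a) := by
  apply Continuous.measurable
  unfold lm
  refine continuous_pi fun i => continuous_pi fun j => ?_
  simp only [Matrix.mul_apply, Matrix.of_apply]
  fun_prop

lemma cR_mul {m : ℕ} (α β : ZM m) : cR (α * β) = cR α * cR β :=
  map_mul (Int.castRingHom ℝ).mapMatrix α β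

lemma cR_one {m : ℕ} : cR (1 : ZM m) = 1 :=
  map_one (Int.castRingHom ℝ).mapMatrix

lemma cR_det {m : ℕ} (α : ZM m) : (cR α).det = ((α.det : ℤ) : ℝ) :=
  ((Int.castRingHom ℝ).map_det α).symm

lemma un_ne {m : ℕ} {γ : ZM m} (h : IsUnit γ) : (cR γ).det ≠ 0 := by
  rw [cR_det]
  have h1 : IsUnit γ.det := (Matrix.isUnit_iff_isUnit_det γ).1 h
  exact_mod_cast h1.ne_zero

lemma det_lm {m : ℕ} {γ : ZM m} (h : IsUnit γ) {z : V m} (hz : (mt z).det ≠ 0) :
    (mt (lm (cR γ) z)).det ≠ 0 := by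
  rw [mt_lm, Matrix.det_mul]
  exact mul_ne_zero (un_ne h) hz

lemma InQ_one {m k : ℕ} : InQ k (1 : ZM m) := by
  refine ⟨isUnit_one, ?_⟩
  intro i j h
  have : i ≠ j := by
    rintro rfl
    rcases h with h | h <;> omega
  exact Matrix.one_apply_ne this

lemma InQ_mul {m k : ℕ} {p q : ZM m} (hp : InQ k p) (hq : InQ k q) : InQ k (p * q) := by
  refine ⟨hp.1.mul hq.1, ?_⟩
  intro i j h
  rw [Matrix.mul_apply]
  apply Finset.sum_eq_zero
  intro l _
  by_cases hl : (l : ℕ) < k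
  · rcases h with h | h
    · rw [hq.2 l j (Or.inl ⟨hl, h.2⟩), mul_zero]
    · rw [hp.2 i l (Or.inr ⟨hl, h.2⟩), zero_mul]
  · rcases h with h | h
    · rw [hp.2 i l (Or.inl ⟨h.1, by omega⟩), zero_mul]
    · rw [hq.2 l j (Or.inr ⟨h.1, by omega⟩), mul_zero]

lemma InQ_inv {m k : ℕ} {q r : ZM m} (hq : InQ k q) (h : q * r = 1) : InQ k r := by
  have hr : IsUnit r := by
    have := mul_eq_one_comm.1 h
    exact ⟨⟨r, q, this, h⟩, rfl⟩
  refine ⟨hr, ?_⟩
  -- the block diagonal part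
  set s : ZM m := Matrix.of fun i j => if ((i : ℕ) < k ∧ k ≤ (j : ℕ)) ∨
    ((j : ℕ) < k ∧ k ≤ (i : ℕ)) then 0 else r i j with hs
  have h1 : q * s = 1 := by
    ext i j
    have e : (q * r) i j = (1 : ZM m) i j := by rw [h]
    rw [Matrix.mul_apply] at e
    by_cases hij : ((i : ℕ) < k ∧ k ≤ (j : ℕ)) ∨ ((j : ℕ) < k ∧ k ≤ (i : ℕ))
    · have hne : i ≠ j := by
        rintro rfl
        rcases hij with h | h <;> omega
      rw [Matrix.one_apply_ne hne, Matrix.mul_apply]
      apply Finset.sum_eq_zero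
      intro l _
      by_cases hl : ((l : ℕ) < k ∧ k ≤ (j : ℕ)) ∨ ((j : ℕ) < k ∧ k ≤ (l : ℕ))
      · have : s l j = 0 := by rw [hs, Matrix.of_apply, if_pos hl]
        rw [this, mul_zero]
      · rw [hq.2 i l (by omega), zero_mul]
    · rw [← e, Matrix.mul_apply]
      apply Finset.sum_congr rfl
      intro l _
      by_cases hl : ((l : ℕ) < k ∧ k ≤ (j : ℕ)) ∨ ((j : ℕ) < k ∧ k ≤ (l : ℕ))
      · rw [hq.2 i l (by omega), zero_mul, zero_mul]
      · have : s l j = r l j := by rw [hs, Matrix.of_apply, if_neg hl]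
        rw [this]
  have h2 : s = r := by
    have e1 : r * q = 1 := mul_eq_one_comm.1 h
    calc s = (r * q) * s := by rw [e1, Matrix.one_mul]
      _ = r := by rw [Matrix.mul_assoc, h1, Matrix.mul_one]
  intro i j hij
  rw [← h2, hs, Matrix.of_apply, if_pos hij]

/-- right multiplication in the block diagonal group -/
noncomputable def eQ {m k : ℕ} (q₀ r₀ : ZM m) (h0 : InQ k q₀) (h1 : InQ k r₀)
    (e : q₀ * r₀ = 1) : {q : ZM m // InQ k q} ≃ {q : ZM m // InQ k q} where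
  toFun q := ⟨q.1 * q₀, InQ_mul q.2 h0⟩
  invFun q := ⟨q.1 * r₀, InQ_mul q.2 h1⟩
  left_inv q := by
    apply Subtype.ext
    show q.1 * q₀ * r₀ = q.1
    rw [Matrix.mul_assoc, e, Matrix.mul_one]
  right_inv q := by
    apply Subtype.ext
    show q.1 * r₀ * q₀ = q.1
    rw [Matrix.mul_assoc, mul_eq_one_comm.1 e, Matrix.mul_one]

end RHO

open RHO in
theorem pf_RHO : T_BLK → T_KAP → T_OMG → T_RHO := by
  intro hB hK hO m k hk
  obtain ⟨⟨e, he⟩, hNu, hQN, hNe, hdet⟩ := hB m k hk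
  obtain ⟨κ, κm, κ1, κs⟩ := hK m k hk
  obtain ⟨ω, ωm, ωi, ωs⟩ := hO m k hk
  classical
  have hcq : Countable {q : ZM m // InQ k q} := by
    have : Countable (ZM m) := inferInstanceAs (Countable (Fin m → Fin m → ℤ))
    infer_instance
  -- the sum
  set Om : V m → ENNReal := fun z => ∑' q : {q : ZM m // InQ k q}, ω (lm (cR q.1) z) with hOm
  have Omm : Measurable Om := by
    rw [hOm]
    exact Measurable.tsum fun q => ωm.comp (meas_lm _)
  have dm : MeasurableSet {z : V m | (mt z).det ≠ 0} := by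
    have hc : Continuous fun z : V m => (mt z).det := by
      apply Continuous.matrix_det
      exact continuous_id
    exact (isOpen_compl_singleton.preimage hc).measurableSet
  set ν : V m → ENNReal := fun z => if (mt z).det ≠ 0 then ω z / Om z else 0 with hν
  have νm : Measurable ν := by
    rw [hν]
    exact Measurable.ite dm (ωm.div Omm) measurable_const
  have ωle : ∀ z, ω z ≤ Om z := by
    intro z
    have h1 := ENNReal.le_tsum (f := fun q : {q : ZM m // InQ k q} => ω (lm (cR q.1) z))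
      ⟨1, InQ_one⟩
    have h2 : lm (cR (1 : ZM m)) z = z := by rw [cR_one, lm_one]
    simpa only [h2] using h1
  have ν1 : ∀ z, ν z ≤ 1 := by
    intro z
    simp only [hν]
    split_ifs with h
    · apply ENNReal.div_le_of_le_mul
      rw [one_mul]
      exact ωle z
    · exact bot_le
  -- invariance of `Om`
  have Omn : ∀ (z : V m) (u : V m), (mt z).det ≠ 0 → Om (lm (1 + nk k u) z) = Om z := by
    intro z u hz
    simp only [hOm]
    apply tsum_congr
    intro q
    obtain ⟨u', hu'⟩ := hQN q.1 q.2 u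
    rw [lm_lm, hu', ← lm_lm]
    exact ωi _ _ (det_lm q.2.1 hz)
  have Omq : ∀ (q₀ : ZM m) (z : V m), InQ k q₀ → Om (lm (cR q₀) z) = Om z := by
    intro q₀ z h0
    obtain ⟨w, hw⟩ := h0.1
    have hr : q₀ * ((w⁻¹ : (ZM m)ˣ) : ZM m) = 1 := by rw [← hw]; exact w.mul_inv
    have h1 : InQ k ((w⁻¹ : (ZM m)ˣ) : ZM m) := InQ_inv h0 hr
    have h2 := (eQ q₀ _ h0 h1 hr).tsum_eq (fun q : {q : ZM m // InQ k q} => ω (lm (cR q.1) z))
    simp only [hOm]
    rw [← h2]
    apply tsum_congr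
    intro q
    show ω (lm (cR q.1) (lm (cR q₀) z)) = ω (lm (cR (q.1 * q₀)) z)
    rw [lm_lm, cR_mul]
  have νn : ∀ (z : V m) (u : V m), (mt z).det ≠ 0 → ν (lm (1 + nk k u) z) = ν z := by
    intro z u hz
    have h1 : (mt (lm (1 + nk k u) z)).det = (mt z).det := by
      rw [mt_lm]; exact hdet u _
    simp only [hν]
    rw [h1, Omn z u hz, ωi z u hz]
  refine ⟨κ, ν, κm, νm, κ1, ν1, νn, κs, ?_⟩
  intro z hz
  -- the sum over the block triangular group
  rw [← e.tsum_eq, ENNReal.tsum_prod', ENNReal.tsum_comm]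
  have h1 : ∀ q : {q : ZM m // InQ k q}, ∑' n : {n : ZM m // InN k n},
      κ (lm (cR (e (n, q)).1) z) * ν (lm (cR (e (n, q)).1) z) = ω (lm (cR q.1) z) * (Om z)⁻¹ := by
    intro q
    have hz' : (mt (lm (cR q.1) z)).det ≠ 0 := det_lm q.2.1 hz
    have h2 : ∀ n : {n : ZM m // InN k n},
        κ (lm (cR (e (n, q)).1) z) * ν (lm (cR (e (n, q)).1) z) =
          κ (lm (cR n.1) (lm (cR q.1) z)) * (ω (lm (cR q.1) z) * (Om z)⁻¹) := by
      intro n
      have h3 : lm (cR (e (n, q)).1) z = lm (cR n.1) (lm (cR q.1) z) := by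
        rw [he, cR_mul, lm_lm]
      rw [h3]
      congr 1
      obtain ⟨u, hu⟩ := (hNe n.1).1 n.2
      rw [hu, νn _ u hz']
      simp only [hν]
      rw [if_pos hz', Omq q.1 z q.2, ENNReal.div_eq_inv_mul, mul_comm]
    rw [tsum_congr h2, ENNReal.tsum_mul_right, κs _ hz', one_mul]
  rw [tsum_congr h1, ENNReal.tsum_mul_right]
  exact ENNReal.mul_inv_cancel (ωs z hz).1 (ωs z hz).2

end Pool.Agent.H84.GU
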