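import Pool.Agent.H34.GU.Targets1

/-!
Row IN3: the inequality for the exponents of three lattices, by the level functions.
-/

set_option autoImplicit false

namespace Pool.Agent.H84.GU

open MeasureTheory Pool.Agent.H34.GM Pool.Agent.H34.GZ Pool.Agent.H34.GU

/-- the level function -/
noncomputable def st (p t : ℝ) : ℝ := if t < p then 1 else 0

lemma st_nonneg (p t : ℝ) : 0 ≤ st p t := by
  unfold st; split_ifs <;> norm_num

lemma st_le_one (p t : ℝ) : st p t ≤ 1 := by
  unfold st; split_ifs <;> norm_num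

lemma st_mono {p q : ℝ} (h : p ≤ q) (t : ℝ) : st p t ≤ st q t := by
  unfold st
  by_cases h1 : t < p
  · rw [if_pos h1, if_pos (lt_of_lt_of_le h1 h)]
  · rw [if_neg h1]; split_ifs <;> norm_num

lemma st_anti (p : ℝ) {s t : ℝ} (h : s ≤ t) : st p t ≤ st p s := by
  unfold st
  by_cases h1 : t < p
  · rw [if_pos h1, if_pos (lt_of_le_of_lt h h1)]
  · rw [if_neg h1]; split_ifs <;> norm_num

lemma st_mul (p q t : ℝ) :
    st p t * (1 - st q t) = (Set.Ico q p).indicator (fun _ => (1 : ℝ)) t := by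
  unfold st
  by_cases h2 : t < q
  · rw [if_pos h2, Set.indicator_of_notMem (fun h => absurd h.1 (not_le.2 h2))]
    ring
  · by_cases h1 : t < p
    · rw [if_pos h1, if_neg h2, Set.indicator_of_mem (show t ∈ Set.Ico q p from ⟨not_lt.1 h2, h1⟩)]
      ring
    · rw [if_neg h1, Set.indicator_of_notMem (fun h => h1 h.2)]
      ring

lemma st_ind (p t : ℝ) : st p t = (Set.Iio p).indicator (fun _ => (1 : ℝ)) t := by
  unfold st
  by_cases h : t < p
  · rw [if_pos h, Set.indicator_of_mem (show t ∈ Set.Iio p from h)]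
  · rw [if_neg h, Set.indicator_of_notMem (show t ∉ Set.Iio p from h)]

lemma ig_mul (R p q : ℝ) :
    IntegrableOn (fun t => st p t * (1 - st q t)) (Set.Ico (-R) R) := by
  have h : (fun t => st p t * (1 - st q t)) = (Set.Ico q p).indicator (fun _ => (1 : ℝ)) := by
    funext t; exact st_mul p q t
  rw [h]
  exact (integrable_const (1 : ℝ)).indicator measurableSet_Ico

lemma ig_st (R p : ℝ) : IntegrableOn (fun t => st p t) (Set.Ico (-R) R) := by
  have h : (fun t => st p t) = (Set.Iio p).indicator (fun _ => (1 : ℝ)) := by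
    funext t; exact st_ind p t
  rw [h]
  exact (integrable_const (1 : ℝ)).indicator measurableSet_Iio

lemma int_mul {R p q : ℝ} (hp : p ≤ R) (hq : -R ≤ q) :
    ∫ t in Set.Ico (-R) R, st p t * (1 - st q t) = max (p - q) 0 := by
  have h : (fun t => st p t * (1 - st q t)) = (Set.Ico q p).indicator (fun _ => (1 : ℝ)) := by
    funext t; exact st_mul p q t
  rw [h, setIntegral_indicator measurableSet_Ico,
    Set.inter_eq_right.2 (Set.Ico_subset_Ico hq hp), setIntegral_const, Real.volume_real_Ico]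
  simp

lemma int_st {R p : ℝ} (hp : p ≤ R) (hq : -R ≤ p) :
    ∫ t in Set.Ico (-R) R, st p t = p + R := by
  have h : (fun t => st p t) = (Set.Iio p).indicator (fun _ => (1 : ℝ)) := by
    funext t; exact st_ind p t
  have h2 : Set.Ico (-R) R ∩ Set.Iio p = Set.Ico (-R) p := by
    ext t
    simp only [Set.mem_inter_iff, Set.mem_Ico, Set.mem_Iio]
    constructor
    · rintro ⟨⟨h1, _⟩, h3⟩; exact ⟨h1, h3⟩
    · rintro ⟨h1, h3⟩; exact ⟨⟨h1, lt_of_lt_of_le h3 hp⟩, h3⟩
  rw [h, setIntegral_indicator measurableSet_Iio, h2, setIntegral_const, Real.volume_real_Ico,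
    max_eq_left (by linarith)]
  simp

/-- the number of the values above the level -/
noncomputable def lv {m : ℕ} (x : Fin m → ℝ) (t : ℝ) : ℝ := ∑ i, st (x i) t

lemma lv_nonneg {m : ℕ} (x : Fin m → ℝ) (t : ℝ) : 0 ≤ lv x t :=
  Finset.sum_nonneg fun _ _ => st_nonneg _ _

lemma lv_le {m : ℕ} (x : Fin m → ℝ) (t : ℝ) : lv x t ≤ m := by
  unfold lv
  calc ∑ i, st (x i) t ≤ ∑ _i : Fin m, (1 : ℝ) := Finset.sum_le_sum fun _ _ => st_le_one _ _
    _ = m := by simp

lemma lv_mono {m : ℕ} {x y : Fin m → ℝ} (h : ∀ i, y i ≤ x i) (t : ℝ) : lv y t ≤ lv x t :=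
  Finset.sum_le_sum fun i _ => st_mono (h i) t

lemma lv_anti {m : ℕ} (x : Fin m → ℝ) {s t : ℝ} (h : s ≤ t) : lv x t ≤ lv x s :=
  Finset.sum_le_sum fun i _ => st_anti (x i) h

lemma lv_prod {m : ℕ} (x y : Fin m → ℝ) (t : ℝ) :
    ∑ i, ∑ j, st (y j) t * (1 - st (x i) t) = lv y t * (m - lv x t) := by
  have h1 : ∀ i, ∑ j, st (y j) t * (1 - st (x i) t) = lv y t * (1 - st (x i) t) := by
    intro i
    rw [← Finset.sum_mul]
    rfl
  rw [Finset.sum_congr rfl fun i _ => h1 i, ← Finset.mul_sum, Finset.sum_sub_distrib]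
  simp [lv]

/-- a double sum of positive parts as an integral -/
lemma dsum {m : ℕ} {R : ℝ} (x y : Fin m → ℝ) (hx : ∀ i, -R ≤ x i) (hy : ∀ i, y i ≤ R) :
    IntegrableOn (fun t => lv y t * (m - lv x t)) (Set.Ico (-R) R) ∧
    ∑ i, ∑ j, max (y j - x i) 0 = ∫ t in Set.Ico (-R) R, lv y t * (m - lv x t) := by
  have e : (fun t => lv y t * (m - lv x t)) =
      fun t => ∑ i, ∑ j, st (y j) t * (1 - st (x i) t) := by
    funext t; exact (lv_prod x y t).symm
  rw [e]
  refine ⟨?_, ?_⟩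
  · refine integrable_finsetSum _ fun i _ => integrable_finsetSum _ fun j _ => ?_
    exact ig_mul R (y j) (x i)
  · rw [integral_finsetSum _ fun i _ => integrable_finsetSum _ fun j _ =>
      ig_mul R (y j) (x i)]
    refine Finset.sum_congr rfl fun i _ => ?_
    rw [integral_finsetSum _ fun j _ => ig_mul R (y j) (x i)]
    refine Finset.sum_congr rfl fun j _ => ?_
    rw [int_mul (hy j) (hx i)]

lemma ssum {m : ℕ} {R : ℝ} (x : Fin m → ℝ) (hx : ∀ i, -R ≤ x i) (hy : ∀ i, x i ≤ R) :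
    IntegrableOn (fun t => lv x t) (Set.Ico (-R) R) ∧
    ∫ t in Set.Ico (-R) R, lv x t = ∑ i, x i + m * R := by
  unfold lv
  refine ⟨integrable_finsetSum _ fun i _ => ig_st R (x i), ?_⟩
  rw [integral_finsetSum _ fun i _ => ig_st R (x i),
    Finset.sum_congr rfl fun i _ => int_st (hy i) (hx i), Finset.sum_add_distrib]
  simp

lemma int6 {μ : Measure ℝ} {f1 f2 f3 f4 f5 f6 : ℝ → ℝ} (h1 : Integrable f1 μ)
    (h2 : Integrable f2 μ) (h3 : Integrable f3 μ) (h4 : Integrable f4 μ) (h5 : Integrable f5 μ)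
    (h6 : Integrable f6 μ) :
    Integrable (fun t => f1 t + f2 t + f3 t - f4 t - f5 t - f6 t) μ ∧
    ∫ t, (f1 t + f2 t + f3 t - f4 t - f5 t - f6 t) ∂μ =
      ∫ t, f1 t ∂μ + ∫ t, f2 t ∂μ + ∫ t, f3 t ∂μ - ∫ t, f4 t ∂μ - ∫ t, f5 t ∂μ -
        ∫ t, f6 t ∂μ := by
  have a2 : Integrable (fun t => f1 t + f2 t) μ := h1.add h2
  have a3 : Integrable (fun t => f1 t + f2 t + f3 t) μ := a2.add h3
  have a4 : Integrable (fun t => f1 t + f2 t + f3 t - f4 t) μ := a3.sub h4
  have a5 : Integrable (fun t => f1 t + f2 t + f3 t - f4 t - f5 t) μ := a4.sub h5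
  refine ⟨a5.sub h6, ?_⟩
  rw [integral_sub a5 h6, integral_sub a4 h5, integral_sub a3 h4, integral_add a2 h3,
    integral_add h1 h2]

/-- the pointwise inequality -/
lemma ptw {m X Y Z p : ℝ} (h1 : Y ≤ X) (h2 : Y ≤ Z) (h3 : X ≤ m) (h4 : Z ≤ m)
    (h0 : 0 ≤ Y) (hp : X - Z ≤ p) (hp2 : p - (X - Z) ≤ m) :
    Y * (m - X) + Y * (m - Z) + X * (m - Z) - X * (m - X) - Y * (m - Y) - Z * (m - Z) ≤
      p * (X - Z) := by
  rcases le_total 0 (X - Z) with h | h
  · nlinarith [mul_nonneg (sub_nonneg.2 h2) (show 0 ≤ m - (X - Y) by linarith),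
      mul_nonneg h (sub_nonneg.2 hp)]
  · nlinarith [mul_nonneg (sub_nonneg.2 h1) (show 0 ≤ m - (Z - Y) by linarith),
      mul_nonneg (show 0 ≤ Z - X by linarith) (show 0 ≤ m - (Z - X) - p by linarith)]

lemma mono_sum {m : ℕ} (x : Fin m → ℝ) (h : Monotone x) :
    ∑ i, ∑ j, (if i < j then x j - x i else 0) = ∑ i, ∑ j, max (x j - x i) 0 := by
  refine Finset.sum_congr rfl fun i _ => Finset.sum_congr rfl fun j _ => ?_
  by_cases hij : i < j
  · rw [if_pos hij, max_eq_left (by linarith [h hij.le])]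
  · rw [if_neg hij, max_eq_right (by linarith [h (not_lt.1 hij)])]

theorem pf_IN3 : T_IN3 := by
  intro m x y z hx hy hz hyx hyz
  set R : ℝ := ∑ i, (|x i| + |y i| + |z i|) with hR
  have hb : ∀ i, |x i| + |y i| + |z i| ≤ R := by
    intro i
    exact Finset.single_le_sum (f := fun i => |x i| + |y i| + |z i|)
      (fun j _ => by positivity) (Finset.mem_univ i)
  have bx : ∀ i, |x i| ≤ R := fun i => by
    linarith [hb i, abs_nonneg (y i), abs_nonneg (z i)]
  have bY : ∀ i, |y i| ≤ R := fun i => by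
    linarith [hb i, abs_nonneg (x i), abs_nonneg (z i)]
  have bz : ∀ i, |z i| ≤ R := fun i => by
    linarith [hb i, abs_nonneg (y i), abs_nonneg (x i)]
  have x1 : ∀ i, -R ≤ x i := fun i => (abs_le.1 (bx i)).1
  have x2 : ∀ i, x i ≤ R := fun i => (abs_le.1 (bx i)).2
  have y1 : ∀ i, -R ≤ y i := fun i => (abs_le.1 (bY i)).1
  have y2 : ∀ i, y i ≤ R := fun i => (abs_le.1 (bY i)).2
  have z1 : ∀ i, -R ≤ z i := fun i => (abs_le.1 (bz i)).1
  have z2 : ∀ i, z i ≤ R := fun i => (abs_le.1 (bz i)).2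
  -- the constant
  set d : ℝ → ℝ := fun t => lv x t - lv z t with hd
  have dm : ∀ t, d t ≤ m := fun t => by
    have := lv_le x t; have := lv_nonneg z t
    simp only [hd]; linarith
  have dm' : ∀ t, -(m : ℝ) ≤ d t := fun t => by
    have := lv_le z t; have := lv_nonneg x t
    simp only [hd]; linarith
  have dd : ∀ t s, d t ≤ m + d s := by
    intro t s
    simp only [hd]
    rcases le_total s t with h | h
    · have := lv_anti x h; have := lv_le z s; have := lv_nonneg z t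
      linarith
    · have := lv_anti z h; have := lv_le x t; have := lv_nonneg x s
      linarith
  set p : ℝ := sSup (insert 0 (Set.range d)) with hp
  have bdd : BddAbove (insert 0 (Set.range d)) := by
    refine ⟨m, ?_⟩
    rintro e (rfl | ⟨t, rfl⟩)
    · positivity
    · exact dm t
  have p0 : 0 ≤ p := le_csSup bdd (Set.mem_insert _ _)
  have pd : ∀ t, d t ≤ p := fun t => le_csSup bdd (Set.mem_insert_of_mem _ ⟨t, rfl⟩)
  have pm : p ≤ m := by
    refine csSup_le ⟨0, Set.mem_insert _ _⟩ ?_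
    rintro e (rfl | ⟨t, rfl⟩)
    · positivity
    · exact dm t
  have ps : ∀ s, p ≤ m + d s := by
    intro s
    refine csSup_le ⟨0, Set.mem_insert _ _⟩ ?_
    rintro e (rfl | ⟨t, rfl⟩)
    · linarith [dm' s]
    · exact dd t s
  -- the integrals
  obtain ⟨i1, e1⟩ := dsum (R := R) x y x1 y2
  obtain ⟨i2, e2⟩ := dsum (R := R) z y z1 y2
  obtain ⟨i3, e3⟩ := dsum (R := R) z x z1 x2
  obtain ⟨i4, e4⟩ := dsum (R := R) x x x1 x2
  obtain ⟨i5, e5⟩ := dsum (R := R) y y y1 y2
  obtain ⟨i6, e6⟩ := dsum (R := R) z z z1 z2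
  obtain ⟨i7, e7⟩ := ssum (R := R) x x1 x2
  obtain ⟨i8, e8⟩ := ssum (R := R) z z1 z2
  have key : (∫ t in Set.Ico (-R) R, (lv y t * (m - lv x t) + lv y t * (m - lv z t) +
      lv x t * (m - lv z t) - lv x t * (m - lv x t) - lv y t * (m - lv y t) -
      lv z t * (m - lv z t))) ≤ ∫ t in Set.Ico (-R) R, p * (lv x t - lv z t) := by
    refine setIntegral_mono ?_ ?_ ?_
    · exact (int6 i1 i2 i3 i4 i5 i6).1
    · exact (i7.sub i8).const_mul p
    · intro t
      exact ptw (lv_mono hyx t) (lv_mono hyz t) (lv_le x t) (lv_le z t) (lv_nonneg y t) (pd t)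
        (by have := ps t; simp only [hd] at this; linarith)
  rw [(int6 i1 i2 i3 i4 i5 i6).2, integral_const_mul, integral_sub i7 i8, ← e1, ← e2, ← e3, ← e4, ← e5, ← e6, e7, e8] at key
  have k1 : p * (∑ i, x i + m * R - (∑ i, z i + m * R)) ≤
      m * max (∑ i, x i - ∑ i, z i) 0 := by
    have : p * (∑ i, x i + m * R - (∑ i, z i + m * R)) = p * (∑ i, x i - ∑ i, z i) := by ring
    rw [this]
    calc p * (∑ i, x i - ∑ i, z i) ≤ p * max (∑ i, x i - ∑ i, z i) 0 :=
          mul_le_mul_of_nonneg_left (le_max_left _ _) p0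
      _ ≤ _ := mul_le_mul_of_nonneg_right pm (le_max_right _ _)
  have k2 : ∑ i, ∑ j, (if i < j then (x j - x i) + (y j - y i) + (z j - z i) else 0) =
      ∑ i, ∑ j, max (x j - x i) 0 + ∑ i, ∑ j, max (y j - y i) 0 +
        ∑ i, ∑ j, max (z j - z i) 0 := by
    rw [← mono_sum x hx, ← mono_sum y hy, ← mono_sum z hz, ← Finset.sum_add_distrib,
      ← Finset.sum_add_distrib]
    refine Finset.sum_congr rfl fun i _ => ?_
    rw [← Finset.sum_add_distrib, ← Finset.sum_add_distrib]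
    refine Finset.sum_congr rfl fun j _ => ?_
    split_ifs <;> ring
  have k3 : ∑ i, ∑ j, (max (y j - x i) 0 + max (y j - z i) 0 + max (x i - z j) 0) =
      ∑ i, ∑ j, max (y j - x i) 0 + ∑ i, ∑ j, max (y j - z i) 0 +
        ∑ i, ∑ j, max (x j - z i) 0 := by
    have : ∑ i, ∑ j, max (x j - z i) 0 = ∑ i, ∑ j, max (x i - z j) 0 := Finset.sum_comm
    rw [this]
    simp only [Finset.sum_add_distrib]
  rw [k2, k3]
  linarith [key, k1]

end Pool.Agent.H84.GU
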