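import Pool.Agent.H16.GU.Targets3

/-!
Row TUP: counting tuples step by step.
-/

set_option autoImplicit false

namespace Pool.Agent.H84.GU

open MeasureTheory Pool.Agent.H34.GM Pool.Agent.H34.GZ Pool.Agent.H34.GU

theorem pf_TUP : T_TUP := by
  classical
  intro α m
  induction m with
  | zero =>
    intro X B hB hX
    refine ⟨Set.toFinite X, ?_⟩
    have h1 : X.ncard ≤ 1 := Set.ncard_le_one_of_subsingleton X
    simpa using h1
  | succ m ih =>
    intro X B hB hX
    rcases X.eq_empty_or_nonempty with h0 | ⟨x0, hx0⟩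
    · subst h0
      refine ⟨Set.finite_empty, ?_⟩
      rw [Set.ncard_empty]
      simpa using Finset.prod_nonneg fun s _ => hB s
    obtain ⟨hA, hA'⟩ := hX 0 x0 hx0
    set A : Set α := {a : α | ∃ y ∈ X, (∀ j, j < (0 : Fin (m + 1)) → y j = x0 j) ∧ y 0 = a}
      with hAd
    have hXa : ∀ a : α, ({t : Fin m → α | (Fin.cons a t : Fin (m + 1) → α) ∈ X}).Finite ∧
        (({t : Fin m → α | (Fin.cons a t : Fin (m + 1) → α) ∈ X}).ncard : ℝ) ≤
          ∏ s : Fin m, B s.succ := by
      intro a
      apply ih _ (fun s => B s.succ) (fun s => hB s.succ)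
      intro s t ht
      obtain ⟨h1, h2⟩ := hX s.succ _ ht
      have hsub : {b : α | ∃ y ∈ {t : Fin m → α | (Fin.cons a t : Fin (m + 1) → α) ∈ X},
          (∀ j, j < s → y j = t j) ∧ y s = b} ⊆
          {b : α | ∃ y ∈ X, (∀ j, j < s.succ → y j = (Fin.cons a t : Fin (m + 1) → α) j) ∧
            y s.succ = b} := by
        rintro b ⟨y, hy, hy1, hy2⟩
        refine ⟨Fin.cons a y, hy, ?_, ?_⟩
        · intro j hj
          refine Fin.cases ?_ (fun j => ?_) j hj
          · intro _
            rw [Fin.cons_zero, Fin.cons_zero]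
          · intro hj
            rw [Fin.cons_succ, Fin.cons_succ]
            exact hy1 j (Fin.succ_lt_succ_iff.1 hj)
        · rw [Fin.cons_succ]
          exact hy2
      refine ⟨h1.subset hsub, le_trans ?_ h2⟩
      exact_mod_cast Set.ncard_le_ncard hsub h1
    -- the covering
    set S : Finset (Fin (m + 1) → α) := hA.toFinset.biUnion fun a =>
      (hXa a).1.toFinset.image fun t => (Fin.cons a t : Fin (m + 1) → α) with hS
    have hsub : X ⊆ (S : Set (Fin (m + 1) → α)) := by
      intro x hx
      rw [hS, Finset.coe_biUnion, Set.mem_iUnion₂]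
      refine ⟨x 0, ?_, ?_⟩
      · rw [Finset.mem_coe, Set.Finite.mem_toFinset]
        exact ⟨x, hx, fun j hj => absurd hj (Fin.not_lt_zero j), rfl⟩
      · rw [Finset.mem_coe, Finset.mem_image]
        refine ⟨Fin.tail x, ?_, Fin.cons_self_tail x⟩
        rw [Set.Finite.mem_toFinset]
        show (Fin.cons (x 0) (Fin.tail x) : Fin (m + 1) → α) ∈ X
        rw [Fin.cons_self_tail]
        exact hx
    have hXf : X.Finite := S.finite_toSet.subset hsub
    refine ⟨hXf, ?_⟩
    have h1 : (X.ncard : ℝ) ≤ (S.card : ℝ) := by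
      have := Set.ncard_le_ncard hsub S.finite_toSet
      rw [Set.ncard_coe_finset] at this
      exact_mod_cast this
    have h2 : (S.card : ℝ) ≤ ∑ a ∈ hA.toFinset, ∏ s : Fin m, B s.succ := by
      have h3 : S.card ≤ ∑ a ∈ hA.toFinset, ((hXa a).1.toFinset.image
          fun t => (Fin.cons a t : Fin (m + 1) → α)).card := Finset.card_biUnion_le
      have h4 : (S.card : ℝ) ≤ ∑ a ∈ hA.toFinset, (((hXa a).1.toFinset.image
          fun t => (Fin.cons a t : Fin (m + 1) → α)).card : ℝ) := by exact_mod_cast h3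
      refine h4.trans (Finset.sum_le_sum fun a _ => ?_)
      refine le_trans ?_ (hXa a).2
      have h5 := Set.ncard_eq_toFinset_card _ (hXa a).1
      have h6 : ((hXa a).1.toFinset.image
          fun t => (Fin.cons a t : Fin (m + 1) → α)).card ≤
          ({t : Fin m → α | (Fin.cons a t : Fin (m + 1) → α) ∈ X}).ncard :=
        le_trans Finset.card_image_le h5.ge
      exact_mod_cast h6
    have h3 : (hA.toFinset.card : ℝ) ≤ B 0 := by
      rw [← Set.ncard_eq_toFinset_card _ hA]
      exact hA'
    calc (X.ncard : ℝ) ≤ ∑ a ∈ hA.toFinset, ∏ s : Fin m, B s.succ := h1.trans h2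
      _ = (hA.toFinset.card : ℝ) * ∏ s : Fin m, B s.succ := by
          rw [Finset.sum_const, nsmul_eq_mul]
      _ ≤ B 0 * ∏ s : Fin m, B s.succ :=
          mul_le_mul_of_nonneg_right h3 (Finset.prod_nonneg fun s _ => hB _)
      _ = ∏ s, B s := (Fin.prod_univ_succ B).symm

end Pool.Agent.H84.GU
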